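import Mathlib

set_option autoImplicit false

namespace Pool.Agent.Results.MP_a02313_nt.StaggeredBlocks

open Filter Set

/-- `A` is admissible: every natural number is `a + n^2` with `a ∈ A`. -/
def Admissible (A : Set ℕ) : Prop := ∀ k : ℕ, ∃ a ∈ A, ∃ n : ℕ, k = a + n ^ 2

/-- `δ(A) = limsup |A ∩ {1,…,N}| / √N`, a value in `[0,∞]`. -/
noncomputable def upperDensity (A : Set ℕ) : ENNReal :=
  limsup (fun N : ℕ => ((A ∩ Set.Icc 1 N).encard : ENNReal) / ENNReal.ofReal (Real.sqrt N)) atTop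

/-- The constant `c` of the problem: the infimum of `δ(A)` over all admissible `A`. -/
noncomputable def sqConst : ENNReal := ⨅ A : {A : Set ℕ // Admissible A}, upperDensity A.1

/-! ### The construction -/

noncomputable def w (j : ℕ) : ℕ := ⌊((729 / 400 : ℝ)) ^ j⌋₊
noncomputable def u (j : ℕ) : ℕ := 4 * w j + 2 * (j % 2)
noncomputable def s (j : ℕ) : ℕ := Nat.sqrt (u (j + 2) - u j)
noncomputable def B (j : ℕ) : Finset ℕ := (Finset.range (s j + 1)).image (fun m => u j + 4 * m)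
def AA : Set ℕ := Set.Iic (u 1) ∪ ⋃ j, (B j : Set ℕ)

lemma sq_repr (D : ℕ) (h : D % 4 = 0 ∨ D % 4 = 1) (hD : 1 ≤ D) :
    ∃ k m, D = 4 * m + k ^ 2 ∧ m ≤ Nat.sqrt D := by
  set q := Nat.sqrt D with hq
  have h1 : q * q ≤ D := Nat.sqrt_le D
  have h2 : D < (q + 1) * (q + 1) := Nat.lt_succ_sqrt D
  have hq1 : 1 ≤ q := by
    rcases Nat.eq_zero_or_pos q with h0 | h0
    · rw [h0] at h2; omega
    · exact h0
  rcases h with h | h
  · obtain ⟨e, he⟩ : ∃ e, D = 4 * e := ⟨D / 4, by omega⟩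
    obtain ⟨p, hp1, hp2⟩ : ∃ p, 2 * p ≤ q ∧ q ≤ 2 * p + 1 := ⟨q / 2, by omega, by omega⟩
    have h3 : (2 * p) * (2 * p) ≤ 4 * e := by
      calc (2 * p) * (2 * p) ≤ q * q := Nat.mul_le_mul hp1 hp1
        _ ≤ D := h1
        _ = 4 * e := he
    have h4 : 4 * e < (2 * p + 2) * (2 * p + 2) := by
      calc 4 * e = D := he.symm
        _ < (q + 1) * (q + 1) := h2
        _ ≤ (2 * p + 2) * (2 * p + 2) := Nat.mul_le_mul (by omega) (by omega)
    have h5 : p * p ≤ e := by nlinarith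
    have h6 : e < p * p + 2 * p + 1 := by nlinarith
    refine ⟨2 * p, e - p * p, ?_, by omega⟩
    obtain ⟨m, hm⟩ : ∃ m, e = p * p + m := ⟨e - p * p, by omega⟩
    rw [he, hm]
    have : p * p + m - p * p = m := by omega
    rw [this]; ring
  · obtain ⟨e, he⟩ : ∃ e, D = 4 * e + 1 := ⟨D / 4, by omega⟩
    obtain ⟨p, hp1, hp2⟩ : ∃ p, 2 * p + 1 ≤ q ∧ q ≤ 2 * p + 2 :=
      ⟨(q - 1) / 2, by omega, by omega⟩
    have h3 : (2 * p + 1) * (2 * p + 1) ≤ 4 * e + 1 := by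
      calc (2 * p + 1) * (2 * p + 1) ≤ q * q := Nat.mul_le_mul hp1 hp1
        _ ≤ D := h1
        _ = 4 * e + 1 := he
    have h4 : 4 * e + 1 < (2 * p + 3) * (2 * p + 3) := by
      calc 4 * e + 1 = D := he.symm
        _ < (q + 1) * (q + 1) := h2
        _ ≤ (2 * p + 3) * (2 * p + 3) := Nat.mul_le_mul (by omega) (by omega)
    have h5 : p * p + p ≤ e := by nlinarith
    have h6 : e < p * p + 3 * p + 2 := by nlinarith
    refine ⟨2 * p + 1, e - (p * p + p), ?_, by omega⟩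
    obtain ⟨m, hm⟩ : ∃ m, e = p * p + p + m := ⟨e - (p * p + p), by omega⟩
    rw [he, hm]
    have : p * p + p + m - (p * p + p) = m := by omega
    rw [this]; ring

lemma cover (j n : ℕ) (h1 : u j < n) (h2 : n ≤ u (j + 2)) (h3 : n % 4 / 2 = j % 2) :
    ∃ a ∈ B j, ∃ k, n = a + k ^ 2 := by
  have hu : u j % 4 = 2 * (j % 2) := by unfold u; omega
  obtain ⟨k, m, hkm, hm⟩ := sq_repr (n - u j) (by omega) (by omega)
  refine ⟨u j + 4 * m, ?_, k, by omega⟩
  refine Finset.mem_image.2 ⟨m, Finset.mem_range.2 ?_, rfl⟩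
  have : Nat.sqrt (n - u j) ≤ s j := Nat.sqrt_le_sqrt (by omega)
  omega

lemma w_unbounded (n : ℕ) : ∃ i, ∀ j, i ≤ j → n ≤ w j := by
  obtain ⟨i, hi⟩ := pow_unbounded_of_one_lt (n : ℝ) (show (1 : ℝ) < 729 / 400 by norm_num)
  refine ⟨i, fun j hj => ?_⟩
  refine Nat.le_floor (hi.le.trans ?_)
  exact pow_le_pow_right₀ (by norm_num) hj

lemma u_zero_le : u 0 ≤ u 1 := by
  unfold u w
  have : ⌊((729 / 400 : ℝ)) ^ 0⌋₊ = 1 := by simp
  have h2 : ⌊((729 / 400 : ℝ)) ^ 1⌋₊ = 1 := by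
    rw [pow_one, Nat.floor_eq_iff (by norm_num)]; norm_num
  rw [this, h2]; norm_num

lemma u_one : u 1 = 6 := by
  unfold u w
  have h2 : ⌊((729 / 400 : ℝ)) ^ 1⌋₊ = 1 := by
    rw [pow_one, Nat.floor_eq_iff (by norm_num)]; norm_num
  rw [h2]

lemma adm : Admissible AA := by
  intro n
  by_cases hn : n ≤ u 1
  · exact ⟨n, Or.inl hn, 0, by simp⟩
  · push Not at hn
    set par := n % 4 / 2 with hpar
    have hpar2 : par < 2 := by omega
    have hex : ∃ i, n ≤ u (2 * i + par) := by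
      obtain ⟨i, hi⟩ := w_unbounded n
      refine ⟨i, ?_⟩
      have := hi (2 * i + par) (by omega)
      unfold u; omega
    classical
    set i := Nat.find hex with hi
    have hi1 : n ≤ u (2 * i + par) := Nat.find_spec hex
    have hi0 : i ≠ 0 := by
      intro h0
      rw [h0] at hi1
      have h0' := u_zero_le
      have : par = 0 ∨ par = 1 := by omega
      rcases this with h | h
      · rw [h] at hi1; simp at hi1; omega
      · rw [h] at hi1; simp at hi1; omega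
    obtain ⟨i', hi'⟩ : ∃ i', i = i' + 1 := ⟨i - 1, by omega⟩
    have hi2 : ¬ n ≤ u (2 * i' + par) := Nat.find_min hex (by omega)
    push Not at hi2
    have h3 : n ≤ u (2 * i' + par + 2) := by
      rw [hi'] at hi1
      have : 2 * (i' + 1) + par = 2 * i' + par + 2 := by ring
      rwa [this] at hi1
    obtain ⟨a, ha, k, hk⟩ := cover (2 * i' + par) n hi2 h3 (by omega)
    exact ⟨a, Or.inr (Set.mem_iUnion.2 ⟨_, ha⟩), k, hk⟩

/-! ### Counting -/

lemma w_le (j : ℕ) : (w j : ℝ) ≤ (729 / 400 : ℝ) ^ j := Nat.floor_le (by positivity)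
lemma lt_w (j : ℕ) : (729 / 400 : ℝ) ^ j < w j + 1 := Nat.lt_floor_add_one _

lemma s_le (j : ℕ) : (s j : ℝ) ≤ 2 * ((15237 / 10000 : ℝ) * (27 / 20 : ℝ) ^ j + 1) := by
  have hpos : 0 < (27 / 20 : ℝ) ^ j := by positivity
  have h1 : ((s j : ℕ) : ℝ) ^ 2 ≤ 4 * ((729 / 400 : ℝ) ^ (j + 2) - (729 / 400 : ℝ) ^ j + 1) := by
    have ha : s j * s j ≤ u (j + 2) - u j := Nat.sqrt_le _
    have hb : u (j + 2) - u j ≤ 4 * w (j + 2) - 4 * w j := by unfold u; omega
    have hc : s j * s j + 4 * w j ≤ 4 * w (j + 2) ∨ s j * s j = 0 := by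
      by_cases h : w j ≤ w (j + 2)
      · left; omega
      · right; omega
    rcases hc with hc | hc
    · have hc' : ((s j : ℕ) : ℝ) * (s j : ℕ) + 4 * (w j : ℝ) ≤ 4 * (w (j + 2) : ℝ) := by
        exact_mod_cast hc
      have := w_le (j + 2)
      have := lt_w j
      nlinarith
    · have hc' : ((s j : ℕ) : ℝ) * (s j : ℕ) = 0 := by exact_mod_cast hc
      have : (729 / 400 : ℝ) ^ j ≤ (729 / 400 : ℝ) ^ (j + 2) :=
        pow_le_pow_right₀ (by norm_num) (by omega)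
      nlinarith
  have h2 : (729 / 400 : ℝ) ^ j = ((27 / 20 : ℝ) ^ j) ^ 2 := by
    rw [← pow_mul, mul_comm, pow_mul]; norm_num
  have h3 : (729 / 400 : ℝ) ^ (j + 2) = ((27 / 20 : ℝ) ^ j) ^ 2 * (729 / 400) ^ 2 := by
    rw [pow_add, h2]
  rw [h3, h2] at h1
  have h4 : ((s j : ℕ) : ℝ) ^ 2 ≤ (2 * ((15237 / 10000 : ℝ) * (27 / 20 : ℝ) ^ j + 1)) ^ 2 := by
    nlinarith [sq_nonneg ((27 / 20 : ℝ) ^ j)]
  exact abs_le_of_sq_le_sq' h4 (by positivity) |>.2

lemma B_card (j : ℕ) : (B j).card ≤ s j + 1 := by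
  unfold B
  exact Finset.card_image_le.trans (by simp)

lemma mem_B_ge {j a : ℕ} (h : a ∈ B j) : u j ≤ a := by
  unfold B at h
  obtain ⟨m, _, hm⟩ := Finset.mem_image.1 h
  omega

noncomputable def F (I : ℕ) : Finset ℕ := Finset.Iic (u 1) ∪ (Finset.range (I + 1)).biUnion B

lemma F_card (I : ℕ) :
    ((F I).card : ℝ) ≤ 7 + 2 * (15237 / 10000 : ℝ) * (27 / 7) * (27 / 20 : ℝ) ^ I + 3 * (I + 1) := by
  have h1 : (F I).card ≤ (Finset.Iic (u 1)).card + ∑ j ∈ Finset.range (I + 1), (s j + 1) := by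
    unfold F
    refine (Finset.card_union_le _ _).trans ?_
    refine Nat.add_le_add_left (Finset.card_biUnion_le.trans ?_) _
    exact Finset.sum_le_sum (fun j _ => B_card j)
  have h2 : (Finset.Iic (u 1)).card = 7 := by rw [u_one]; rfl
  rw [h2] at h1
  have h3 : ((F I).card : ℝ) ≤ 7 + ∑ j ∈ Finset.range (I + 1), ((s j : ℝ) + 1) := by
    exact_mod_cast h1
  refine h3.trans ?_
  have h4 : ∑ j ∈ Finset.range (I + 1), ((s j : ℝ) + 1)
      ≤ ∑ j ∈ Finset.range (I + 1), (2 * (15237 / 10000 : ℝ) * (27 / 20 : ℝ) ^ j + 3) := by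
    refine Finset.sum_le_sum (fun j _ => ?_)
    have := s_le j
    linarith
  have h5 : ∑ j ∈ Finset.range (I + 1), (2 * (15237 / 10000 : ℝ) * (27 / 20 : ℝ) ^ j + 3)
      = 2 * (15237 / 10000 : ℝ) * (((27 / 20 : ℝ) ^ (I + 1) - 1) / (27 / 20 - 1)) + 3 * (I + 1) := by
    rw [Finset.sum_add_distrib, ← Finset.mul_sum, geom_sum_eq (by norm_num)]
    simp; ring
  rw [h5] at h4
  have h6 : (27 / 20 : ℝ) ^ (I + 1) = (27 / 20 : ℝ) ^ I * (27 / 20) := pow_succ _ _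
  have h7 : ((27 / 20 : ℝ) ^ I * (27 / 20) - 1) / (27 / 20 - 1)
      = (27 / 20 : ℝ) ^ I * (27 / 7) - 20 / 7 := by
    rw [div_eq_iff (by norm_num)]; ring
  rw [h6, h7] at h4
  have : 0 < (27 / 20 : ℝ) ^ I := by positivity
  linarith

lemma subset_F (N I : ℕ) (h : (N : ℝ) / 4 + 1 < (729 / 400 : ℝ) ^ (I + 1)) :
    AA ∩ Set.Icc 1 N ⊆ (F I : Set ℕ) := by
  rintro a ⟨ha, ha1, ha2⟩
  unfold F
  rw [Finset.coe_union]
  rcases ha with ha | ha
  · left; simpa using ha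
  · right
    obtain ⟨j, hj⟩ := Set.mem_iUnion.1 ha
    have hj' : a ∈ B j := hj
    have h1 := mem_B_ge hj'
    have h2 : 4 * w j ≤ N := by
      have : 4 * w j ≤ u j := by unfold u; omega
      omega
    have h3 : 4 * (w j : ℝ) ≤ N := by exact_mod_cast h2
    have h4 := lt_w j
    have h5 : (729 / 400 : ℝ) ^ j < (729 / 400 : ℝ) ^ (I + 1) := by linarith
    have h6 : j < I + 1 := (pow_lt_pow_iff_right₀ (by norm_num : (1:ℝ) < 729 / 400)).1 h5
    simp only [Finset.coe_biUnion, Set.mem_iUnion]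
    exact ⟨j, by simpa using h6, hj'⟩

lemma ev_I : ∀ᶠ I : ℕ in atTop, 22 + 3 * (I : ℝ) ≤ (57 / 10000 : ℝ) * (27 / 20 : ℝ) ^ I := by
  have h1 := tendsto_pow_const_div_const_pow_of_one_lt 1 (show (1 : ℝ) < 27 / 20 by norm_num)
  have h0 := tendsto_pow_const_div_const_pow_of_one_lt 0 (show (1 : ℝ) < 27 / 20 by norm_num)
  have h2 := (h0.const_mul 22).add (h1.const_mul 3)
  simp only [mul_zero, add_zero] at h2
  have h3 := h2.eventually (gt_mem_nhds (show (0 : ℝ) < 57 / 10000 by norm_num))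
  filter_upwards [h3] with I hI
  have hpos : 0 < (27 / 20 : ℝ) ^ I := by positivity
  have : (22 + 3 * (I : ℝ)) / (27 / 20 : ℝ) ^ I < 57 / 10000 := by
    calc (22 + 3 * (I : ℝ)) / (27 / 20 : ℝ) ^ I
        = 22 * ((I : ℝ) ^ 0 / (27 / 20 : ℝ) ^ I) + 3 * ((I : ℝ) ^ 1 / (27 / 20 : ℝ) ^ I) := by
          rw [pow_zero, pow_one]; ring
      _ < _ := hI
  rw [div_lt_iff₀ hpos] at this
  exact this.le

lemma ev_N : ∀ᶠ N : ℕ in atTop,
    ((AA ∩ Set.Icc 1 N).encard : ENNReal) / ENNReal.ofReal (Real.sqrt N) ≤ 147 / 25 := by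
  obtain ⟨I0, hI0⟩ := eventually_atTop.1 ev_I
  obtain ⟨N0, hN0⟩ := exists_nat_gt (4 * (729 / 400 : ℝ) ^ I0)
  filter_upwards [eventually_ge_atTop (max N0 1)] with N hN
  have hN1 : N0 ≤ N := le_trans (le_max_left _ _) hN
  have hN2 : 1 ≤ N := le_trans (le_max_right _ _) hN
  have hN3 : (N0 : ℝ) ≤ N := by exact_mod_cast hN1
  have hN4 : (1 : ℝ) ≤ N := by exact_mod_cast hN2
  obtain ⟨I, hI1, hI2⟩ := exists_nat_pow_near (x := (N : ℝ) / 4 + 1) (y := (729 / 400 : ℝ))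
    (by linarith) (by norm_num)
  have hII : I0 ≤ I := by
    have : (729 / 400 : ℝ) ^ I0 < (729 / 400 : ℝ) ^ (I + 1) := by linarith
    have := (pow_lt_pow_iff_right₀ (by norm_num : (1:ℝ) < 729 / 400)).1 this
    omega
  have h1 := hI0 I hII
  have h2 := F_card I
  have ht : 1 ≤ (27 / 20 : ℝ) ^ I := one_le_pow₀ (by norm_num)
  have h3 : 2 * ((27 / 20 : ℝ) ^ I - 1) ≤ Real.sqrt N := by
    apply Real.le_sqrt_of_sq_le
    have hy : (729 / 400 : ℝ) ^ I = ((27 / 20 : ℝ) ^ I) ^ 2 := by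
      rw [← pow_mul, mul_comm, pow_mul]; norm_num
    rw [hy] at hI1
    nlinarith
  have h4 : ((F I).card : ℝ) ≤ 147 / 25 * Real.sqrt N := by
    have : (147 / 25 : ℝ) * (2 * ((27 / 20 : ℝ) ^ I - 1)) ≤ 147 / 25 * Real.sqrt N := by
      exact mul_le_mul_of_nonneg_left h3 (by norm_num)
    nlinarith
  have hs : 0 < Real.sqrt N := Real.sqrt_pos.2 (by linarith)
  have h5 : ((AA ∩ Set.Icc 1 N).encard : ENNReal) ≤ ((F I).card : ENNReal) := by
    have := Set.encard_le_encard (subset_F N I hI2)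
    rw [Set.encard_coe_eq_coe_finsetCard] at this
    exact_mod_cast this
  refine (ENNReal.div_le_iff (by simpa using hs) (by simp)).2 ?_
  refine h5.trans ?_
  have h6 : ((F I).card : ENNReal) = ENNReal.ofReal ((F I).card : ℝ) := by simp
  have h7 : (147 / 25 : ENNReal) = ENNReal.ofReal (147 / 25) := by
    rw [ENNReal.ofReal_div_of_pos (by norm_num)]; norm_num
  rw [h6, h7, ← ENNReal.ofReal_mul (by norm_num)]
  exact ENNReal.ofReal_le_ofReal h4

lemma phi_bound : (147 / 25 : ℝ) < 2 * ((1 + Real.sqrt 5) / 2) ^ (5 / 2 : ℝ) := by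
  have h5 : (2.236 : ℝ) < Real.sqrt 5 := by
    apply Real.lt_sqrt_of_sq_lt; norm_num
  have hphi : (1.6 : ℝ) ≤ (1 + Real.sqrt 5) / 2 := by linarith
  have h1 : (1.6 : ℝ) ^ (5 / 2 : ℝ) ≤ ((1 + Real.sqrt 5) / 2) ^ (5 / 2 : ℝ) :=
    Real.rpow_le_rpow (by norm_num) hphi (by norm_num)
  have h2 : (2.95 : ℝ) < (1.6 : ℝ) ^ (5 / 2 : ℝ) := by
    have : (1.6 : ℝ) ^ (5 / 2 : ℝ) = Real.sqrt (1.6 ^ 5) := by
      rw [Real.sqrt_eq_rpow, ← Real.rpow_natCast, ← Real.rpow_mul (by norm_num)]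
      norm_num
    rw [this]
    apply Real.lt_sqrt_of_sq_lt
    norm_num
  linarith

/-- The constant `c` of the problem satisfies `c ≤ 5.88`, which is smaller than `2 φ^{5/2}`. -/
theorem result : sqConst ≤ 147 / 25 ∧
    (147 / 25 : ENNReal) < ENNReal.ofReal (2 * ((1 + Real.sqrt 5) / 2) ^ (5 / 2 : ℝ)) := by
  constructor
  · unfold sqConst
    refine (iInf_le _ (⟨AA, adm⟩ : {A : Set ℕ // Admissible A})).trans ?_
    unfold upperDensity
    exact Filter.limsup_le_of_le (by isBoundedDefault) ev_N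
  · have h7 : (147 / 25 : ENNReal) = ENNReal.ofReal (147 / 25) := by
      rw [ENNReal.ofReal_div_of_pos (by norm_num)]; norm_num
    rw [h7]
    exact (ENNReal.ofReal_lt_ofReal_iff_of_nonneg (by norm_num)).2 phi_bound

end Pool.Agent.Results.MP_a02313_nt.StaggeredBlocks
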